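import Pool.Agent.helper83.SB.Spec
import Pool.Agent.helper21.SC.CH1

/-!
Row sb:SHF (MP_d2d7b9): the shell formula.
-/

open scoped Pointwise ContDiff
open MeasureTheory Set Filter Topology

set_option linter.unusedVariables false

namespace Pool.Agent.helper83.SB

open Pool.Agent.helper83.SC

theorem SHF_pt_cont {m : ℕ} (b : OrthonormalBasis (Fin (m + 1)) ℝ (E (m + 1))) :
    Continuous (fun q : E m × ℝ => pt b q.1 q.2) := by
  unfold pt
  fun_prop

theorem SHF_of (hSHL : SHL_stmt) (hPTC : PTC_stmt) (hLFT : LFT_stmt) (hONE : ONE_stmt)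
    (hMSR : MSR_stmt) : SHF_stmt := by
  intro m b K hK φ hφ ε hε hε1
  obtain ⟨hS, hSfin, hdir, hsph, -⟩ := hSHL hK ε
  obtain ⟨hlm, -, -, hli⟩ := hLFT b hφ
  have hcoord := CH1_mp b
  obtain ⟨-, hpt2, -⟩ := hPTC b
  -- the integrand on the shell
  have hint0 : Integrable (lift b φ) (rho K ε) := hli _ hsph
  have hint1 : IntegrableOn (fun z => lift b φ (dir K z)) (shell K ε) := by
    unfold rho at hint0
    exact hint0.comp_measurable hdir
  have hint2 : Integrable ((shell K ε).indicator (fun z => lift b φ (dir K z))) :=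
    (integrable_indicator_iff hS).2 hint1
  have hgm : Measurable ((shell K ε).indicator (fun z => lift b φ (dir K z))) :=
    (hlm.comp hdir).indicator hS
  have hGm : Measurable (fun q : E m × ℝ =>
      (shell K ε).indicator (fun z => lift b φ (dir K z)) (pt b q.1 q.2)) :=
    hgm.comp (SHF_pt_cont b).measurable
  have hcomp : (fun q : E m × ℝ =>
      (shell K ε).indicator (fun z => lift b φ (dir K z)) (pt b q.1 q.2)) ∘ (coord b) =
      (shell K ε).indicator (fun z => lift b φ (dir K z)) := by
    funext z
    change (shell K ε).indicator (fun z => lift b φ (dir K z)) (pt b (coord b z).1 (coord b z).2) = _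
    rw [hpt2 z]
  have hGi : Integrable (fun q : E m × ℝ =>
      (shell K ε).indicator (fun z => lift b φ (dir K z)) (pt b q.1 q.2))
      ((volume : Measure (E m)).prod (volume : Measure ℝ)) := by
    have h1 := hcoord.integrable_comp (g := fun q : E m × ℝ =>
      (shell K ε).indicator (fun z => lift b φ (dir K z)) (pt b q.1 q.2))
      hGm.aestronglyMeasurable
    rw [hcomp] at h1
    exact h1.1 hint2
  -- step 1
  have e1 : ∫ v, lift b φ v ∂(rho K ε) =
      ∫ z, (shell K ε).indicator (fun z => lift b φ (dir K z)) z := by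
    unfold rho
    rw [integral_map hdir.aemeasurable hlm.aestronglyMeasurable, integral_indicator hS]
  -- step 2
  have e2 : ∫ z, (shell K ε).indicator (fun z => lift b φ (dir K z)) z =
      ∫ q, (shell K ε).indicator (fun z => lift b φ (dir K z)) (pt b q.1 q.2)
        ∂((volume : Measure (E m)).prod (volume : Measure ℝ)) := by
    have h1 : ∫ q, (shell K ε).indicator (fun z => lift b φ (dir K z)) (pt b q.1 q.2)
        ∂((volume : Measure (E m)).prod (volume : Measure ℝ)) =
        ∫ z, (fun q : E m × ℝ =>
      (shell K ε).indicator (fun z => lift b φ (dir K z)) (pt b q.1 q.2)) (coord b z) := by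
      rw [← integral_map hcoord.measurable.aemeasurable hGm.aestronglyMeasurable, hcoord.map_eq]
      rfl
    rw [h1]
    refine integral_congr_ae (Filter.Eventually.of_forall fun z => ?_)
    change _ = (shell K ε).indicator (fun z => lift b φ (dir K z))
      (pt b (coord b z).1 (coord b z).2)
    rw [hpt2 z]
  rw [e1, e2, integral_prod _ hGi]
  -- step 4
  have e3 : ∀ p : E m, ∫ s : ℝ, (shell K ε).indicator (fun z => lift b φ (dir K z)) (pt b p s)
      = ∫ t in Ioc (0 : ℝ) ε, sel φ (ft b K t) p := fun p => hONE b hK φ hφ ε p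
  simp only [e3]
  have h5 := hMSR b hK φ hφ ε hε hε1
  unfold A
  exact integral_integral_swap (f := fun (p : E m) (t : ℝ) => sel φ (ft b K t) p) h5

end Pool.Agent.helper83.SB
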